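import Pool.Agent.Run7.h934.FR.Base

set_option autoImplicit false

/-!
# Splay trees and `k` relabellings: the interleave bound by blocks
-/

namespace Pool.Agent.Run7.h934.FT

open Pool.Agent.H581R2.Splay Pool.Agent.TH49.Spl Pool.Agent.Y395.SP Pool.Agent.N724.TW
open Pool.Agent.Run7.h934.FR

/-- both halves of the node with labels `[v, v + 2 ^ (D + 1))` contain labels of keys -/
def bb {n : ℕ} (u : Fin n → ℕ) (D v : ℕ) : Bool :=
  decide (F u v < F u (v + 2 ^ D) ∧ F u (v + 2 ^ D) < F u (v + 2 ^ D + 2 ^ D))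

/-- the scheme of the labels in `[v, v + 2 ^ D)`, with credit at the branching nodes -/
def FT {n : ℕ} (u : Fin n → ℕ) : ℕ → ℕ → AS
  | 0, _ => AS.leaf
  | D + 1, v => AS.node (F u (v + 2 ^ D)) (bb u D v) (bb u D v) (FT u D v) (FT u D (v + 2 ^ D))

theorem cred_FT {n : ℕ} (u : Fin n → ℕ) (D v : ℕ) :
    cred (FT u D v) ≤ (F u (v + 2 ^ D) - F u v) - 1 := by
  induction D generalizing v with
  | zero => simp [FT, cred]
  | succ D ih =>
    have h1 := ih v
    have h2 := ih (v + 2 ^ D)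
    have m1 : F u v ≤ F u (v + 2 ^ D) := F_mono u (Nat.le_add_right _ _)
    have m2 : F u (v + 2 ^ D) ≤ F u (v + 2 ^ D + 2 ^ D) := F_mono u (Nat.le_add_right _ _)
    rw [two_pow_eq]
    simp only [FT, cred]
    by_cases hb : F u v < F u (v + 2 ^ D) ∧ F u (v + 2 ^ D) < F u (v + 2 ^ D + 2 ^ D)
    · have : bb u D v = true := by simp [bb, hb]
      rw [this]
      simp only [if_true]
      omega
    · have : bb u D v = false := by simp only [bb, hb, decide_false]
      rw [this]
      simp only [Bool.false_eq_true, if_false]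
      omega

theorem ok_FT {n : ℕ} (u : Fin n → ℕ) (D v : ℕ) : ok (FT u D v) (F u v) (F u (v + 2 ^ D)) := by
  induction D generalizing v with
  | zero => trivial
  | succ D ih =>
    refine ⟨F_mono u (Nat.le_add_right _ _), ?_, ih v, ?_⟩
    · rw [two_pow_eq]
      exact F_mono u (Nat.le_add_right _ _)
    · rw [two_pow_eq]
      exact ih (v + 2 ^ D)

theorem inv_FT {n : ℕ} (u : Fin n → ℕ) (T : Tr) (D v l r : ℕ) : inv T (FT u D v) l r := by
  induction D generalizing v l r with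
  | zero => trivial
  | succ D ih => exact ⟨fun h1 h2 => by rw [h1] at h2; simp at h2, ih _ _ _, ih _ _ _⟩

/-- the number of changes in the node number `i` at the level with halves of length `2 ^ e` -/
def nd {n : ℕ} (u : Fin n → ℕ) (Y : List ℕ) (e v : ℕ) : ℕ :=
  cnt (F u v) (F u (v + 2 ^ e)) (F u (v + 2 * 2 ^ e)) (bb u e v) Y

theorem val_FT {n : ℕ} (u : Fin n → ℕ) (Y : List ℕ) (D l : ℕ) :
    val (FT u D l) (F u l) (F u (l + 2 ^ D)) Y =
    ∑ e ∈ Finset.range D, ∑ i ∈ Finset.range (2 ^ (D - 1 - e)), nd u Y e (l + i * (2 * 2 ^ e)) := by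
  induction D generalizing l with
  | zero => simp [FT, val]
  | succ D ih =>
    rw [Finset.sum_range_succ]
    have h1 : val (FT u (D + 1) l) (F u l) (F u (l + 2 ^ (D + 1))) Y =
        nd u Y D l + val (FT u D l) (F u l) (F u (l + 2 ^ D)) Y +
          val (FT u D (l + 2 ^ D)) (F u (l + 2 ^ D)) (F u (l + 2 ^ (D + 1))) Y := by
      have : 2 ^ (D + 1) = 2 * 2 ^ D := by rw [pow_succ]; ring
      unfold nd
      rw [← this]
      rfl
    have h2 : ∑ i ∈ Finset.range (2 ^ (D + 1 - 1 - D)), nd u Y D (l + i * (2 * 2 ^ D)) =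
        nd u Y D l := by
      have e1 : D + 1 - 1 - D = 0 := by omega
      rw [e1, pow_zero, Finset.sum_range_one]
      congr 1
      ring
    have h3 : ∑ e ∈ Finset.range D, ∑ i ∈ Finset.range (2 ^ (D + 1 - 1 - e)),
        nd u Y e (l + i * (2 * 2 ^ e)) =
        (∑ e ∈ Finset.range D, ∑ i ∈ Finset.range (2 ^ (D - 1 - e)),
          nd u Y e (l + i * (2 * 2 ^ e))) +
        ∑ e ∈ Finset.range D, ∑ i ∈ Finset.range (2 ^ (D - 1 - e)),
          nd u Y e (l + 2 ^ D + i * (2 * 2 ^ e)) := by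
      rw [← Finset.sum_add_distrib]
      refine Finset.sum_congr rfl fun e he => ?_
      have he' := Finset.mem_range.1 he
      have e1 : D + 1 - 1 - e = (D - 1 - e) + 1 := by omega
      have e2 : 2 ^ (D - 1 - e) * (2 * 2 ^ e) = 2 ^ D := by
        rw [← pow_succ', ← pow_add]
        congr 1
        omega
      rw [e1, pow_succ, mul_two, Finset.sum_range_add]
      congr 1
      refine Finset.sum_congr rfl fun i _ => ?_
      have e3 : (2 ^ (D - 1 - e) + i) * (2 * 2 ^ e) = 2 ^ D + i * (2 * 2 ^ e) := by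
        rw [add_mul, e2]
      rw [e3, ← add_assoc]
    rw [h1, h2, h3, ih l, two_pow_eq, ih (l + 2 ^ D)]
    ring

/-- the changes in all nodes -/
def alt {n : ℕ} (u : Fin n → ℕ) (D : ℕ) (Y : List ℕ) : ℕ :=
  ∑ e ∈ Finset.range D, ∑ i ∈ Finset.range (2 ^ (D - 1 - e)), nd u Y e (i * (2 * 2 ^ e))

theorem alt_le {n : ℕ} (u : Fin n → ℕ) (D : ℕ) {T : Tr} {Y : List ℕ} {c : ℕ} (hb : IsBST T)
    (hY : ∀ x ∈ Y, x ∈ keys T) (hE : Exec T Y c) : alt u D Y ≤ 2 * c + n := by
  have h := exec_val hE hb hY (FT u D 0) (F u 0) (F u (0 + 2 ^ D)) (ok_FT u D 0)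
    (inv_FT u T D 0 _ _)
  have h2 := cred_FT u D 0
  have h3 : F u (0 + 2 ^ D) ≤ n := by
    unfold F
    have := Finset.card_filter_le (Finset.univ : Finset (Fin n)) (fun y => u y < 0 + 2 ^ D)
    rwa [Finset.card_univ, Fintype.card_fin] at this
  rw [val_FT] at h
  unfold alt
  simp only [zero_add] at h h2 h3 ⊢
  omega

/-! ### Blocks -/

/-- the number of changes of the side, and the side after a block -/
def trn (l m r : ℕ) : Bool → List ℕ → ℕ
  | _, [] => 0
  | b, x :: X =>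
      if l ≤ x ∧ x < m then (if b then 0 else 1) + trn l m r true X
      else if m ≤ x ∧ x < r then (if b then 1 else 0) + trn l m r false X
      else trn l m r b X

def est (l m r : ℕ) : Bool → List ℕ → Bool
  | b, [] => b
  | b, x :: X =>
      if l ≤ x ∧ x < m then est l m r true X
      else if m ≤ x ∧ x < r then est l m r false X
      else est l m r b X

theorem cnt_est (l m r : ℕ) (B Z : List ℕ) : ∀ b : Bool,
    cnt l m r b (B ++ Z) = cnt l m r b B + cnt l m r (est l m r b B) Z := by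
  induction B with
  | nil => intro b; simp [cnt, est]
  | cons x B ih =>
    intro b
    simp only [List.cons_append, cnt, est]
    split_ifs <;> rw [ih] <;> omega

theorem trn_eq (l m r : ℕ) (B : List ℕ) : ∀ b : Bool,
    trn l m r b B + b.toNat = 2 * cnt l m r b B + (est l m r b B).toNat := by
  induction B with
  | nil => intro b; simp [trn, cnt, est]
  | cons x B ih =>
    intro b
    have h1 := ih true
    have h2 := ih false
    have h3 := ih b
    simp only [Bool.toNat_true, Bool.toNat_false] at h1 h2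
    simp only [trn, cnt, est]
    by_cases c1 : l ≤ x ∧ x < m
    · rw [if_pos c1, if_pos c1, if_pos c1]
      cases b <;> simp <;> omega
    · by_cases c2 : m ≤ x ∧ x < r
      · rw [if_neg c1, if_neg c1, if_neg c1, if_pos c2, if_pos c2, if_pos c2]
        cases b <;> simp <;> omega
      · rw [if_neg c1, if_neg c1, if_neg c1, if_neg c2, if_neg c2, if_neg c2]
        exact h3

theorem trn_l (l m r : ℕ) (B : List ℕ) : (∃ x ∈ B, l ≤ x ∧ x < m) → 1 ≤ trn l m r false B := by
  induction B with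
  | nil => rintro ⟨x, hx, -⟩; simp at hx
  | cons y B ih =>
    rintro ⟨x, hx, h1⟩
    simp only [trn]
    by_cases c1 : l ≤ y ∧ y < m
    · rw [if_pos c1]
      simp
    · have hx' : x ∈ B := by
        rcases List.mem_cons.1 hx with rfl | hx
        · exact absurd h1 c1
        · exact hx
      rw [if_neg c1]
      have := ih ⟨x, hx', h1⟩
      split_ifs <;> omega

theorem trn_r (l m r : ℕ) (hlm : l ≤ m) (B : List ℕ) : (∃ x ∈ B, m ≤ x ∧ x < r) →
    1 ≤ trn l m r true B := by
  induction B with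
  | nil => rintro ⟨x, hx, -⟩; simp at hx
  | cons y B ih =>
    rintro ⟨x, hx, h1⟩
    simp only [trn]
    by_cases c2 : m ≤ y ∧ y < r
    · rw [if_neg (by omega), if_pos c2]
      simp
    · have hx' : x ∈ B := by
        rcases List.mem_cons.1 hx with rfl | hx
        · exact absurd h1 c2
        · exact hx
      have := ih ⟨x, hx', h1⟩
      split_ifs <;> omega

theorem trn_both (l m r : ℕ) (hlm : l ≤ m) (B : List ℕ) (h1 : ∃ x ∈ B, l ≤ x ∧ x < m)
    (h2 : ∃ x ∈ B, m ≤ x ∧ x < r) (b : Bool) : 1 ≤ trn l m r b B := by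
  cases b
  · exact trn_l l m r B h1
  · exact trn_r l m r hlm B h2

/-- blocks which meet both sides -/
theorem blocks_le (l m r : ℕ) (hlm : l ≤ m) (R : List ℕ) (Q : List ℕ → Prop) [DecidablePred Q]
    (hQ : ∀ B, Q B → (∃ x ∈ B, l ≤ x ∧ x < m) ∧ ∃ x ∈ B, m ≤ x ∧ x < r) (Ls : List (List ℕ)) :
    ∀ b : Bool, (Ls.map fun B => if Q B then 1 else 0).sum + b.toNat ≤
      2 * cnt l m r b (Ls.flatten ++ R) + 1 := by
  induction Ls with
  | nil =>
    intro b
    have := Bool.toNat_le b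
    simp only [List.map_nil, List.sum_nil]
    omega
  | cons B Ls ih =>
    intro b
    rw [List.flatten_cons, List.append_assoc, cnt_est, List.map_cons, List.sum_cons]
    have h1 := ih (est l m r b B)
    have h2 := trn_eq l m r B b
    by_cases hB : Q B
    · have h3 := trn_both l m r hlm B (hQ B hB).1 (hQ B hB).2 b
      rw [if_pos hB]
      omega
    · rw [if_neg hB]
      omega

theorem GN_eq {n : ℕ} (u : Fin n → ℕ) (e i : ℕ) (P : Finset (Fin n))
    (h1 : ∃ y ∈ P, u y / 2 ^ e = 2 * i) (h2 : ∃ x ∈ P, u x / 2 ^ e = 2 * i + 1) :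
    bb u e (i * (2 * 2 ^ e)) = true := by
  obtain ⟨y, -, hy⟩ := h1
  obtain ⟨x, -, hx⟩ := h2
  have hw : 0 < 2 ^ e := by positivity
  have g1 := mem_l u hw hy
  have g2 := mem_r u hw hx
  have e1 : (i + 1) * (2 * 2 ^ e) = i * (2 * 2 ^ e) + 2 ^ e + 2 ^ e := by ring
  rw [e1] at g2
  unfold bb
  rw [decide_eq_true_eq]
  omega

/-- one level -/
theorem level_le {n : ℕ} (u : Fin n → ℕ) (e N : ℕ) (R : List (Fin n))
    (Ls : List (List (Fin n))) :
    (Ls.map fun B => (GN (2 ^ e) N u B.toFinset B.toFinset).card).sum ≤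
      2 * ∑ i ∈ Finset.range N, nd u (rel (pm u) (Ls.flatten ++ R)) e (i * (2 * 2 ^ e)) := by
  classical
  have h1 : (Ls.map fun B => (GN (2 ^ e) N u B.toFinset B.toFinset).card).sum =
      ∑ i ∈ Finset.range N, (Ls.map fun B =>
        if (∃ y ∈ B.toFinset, u y / 2 ^ e = 2 * i) ∧ ∃ x ∈ B.toFinset, u x / 2 ^ e = 2 * i + 1
          then 1 else 0).sum := by
    induction Ls with
    | nil => simp
    | cons B Ls ih =>
      rw [List.map_cons, List.sum_cons, ih, GN, Finset.card_filter, ← Finset.sum_add_distrib]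
      simp only [List.map_cons, List.sum_cons]
  rw [h1, Finset.mul_sum]
  refine Finset.sum_le_sum fun i _ => ?_
  by_cases hex : ∃ B ∈ Ls, (∃ y ∈ B.toFinset, u y / 2 ^ e = 2 * i) ∧
      ∃ x ∈ B.toFinset, u x / 2 ^ e = 2 * i + 1
  · obtain ⟨B0, -, hB1, hB2⟩ := hex
    have hbb := GN_eq u e i B0.toFinset hB1 hB2
    have hw : 0 < 2 ^ e := by positivity
    have hm : ∀ Ms : List (List (Fin n)), (Ms.map fun B =>
        if (∃ y ∈ B.toFinset, u y / 2 ^ e = 2 * i) ∧ ∃ x ∈ B.toFinset, u x / 2 ^ e = 2 * i + 1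
          then 1 else 0).sum ≤ ((Ms.map (rel (pm u))).map fun B =>
        if (∃ x ∈ B, F u (i * (2 * 2 ^ e)) ≤ x ∧ x < F u (i * (2 * 2 ^ e) + 2 ^ e)) ∧
          ∃ x ∈ B, F u (i * (2 * 2 ^ e) + 2 ^ e) ≤ x ∧ x < F u (i * (2 * 2 ^ e) + 2 * 2 ^ e)
          then 1 else 0).sum := by
      intro Ms
      induction Ms with
      | nil => simp
      | cons B Ms ih =>
        simp only [List.map_cons, List.sum_cons]
        refine Nat.add_le_add ?_ ih
        by_cases c : (∃ y ∈ B.toFinset, u y / 2 ^ e = 2 * i) ∧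
            ∃ x ∈ B.toFinset, u x / 2 ^ e = 2 * i + 1
        · rw [if_pos c, if_pos]
          obtain ⟨⟨y, hy, hy2⟩, x, hx, hx2⟩ := c
          have e2 : i * (2 * 2 ^ e) + 2 * 2 ^ e = (i + 1) * (2 * 2 ^ e) := by ring
          rw [e2]
          refine ⟨⟨_, List.mem_map.2 ⟨y, List.mem_toFinset.1 hy, rfl⟩, mem_l u hw hy2⟩,
            _, List.mem_map.2 ⟨x, List.mem_toFinset.1 hx, rfl⟩, mem_r u hw hx2⟩
        · rw [if_neg c]
          exact Nat.zero_le _
    have h2 := blocks_le (F u (i * (2 * 2 ^ e))) (F u (i * (2 * 2 ^ e) + 2 ^ e))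
      (F u (i * (2 * 2 ^ e) + 2 * 2 ^ e)) (F_mono u (Nat.le_add_right _ _)) (rel (pm u) R)
      (fun B => (∃ x ∈ B, F u (i * (2 * 2 ^ e)) ≤ x ∧ x < F u (i * (2 * 2 ^ e) + 2 ^ e)) ∧
          ∃ x ∈ B, F u (i * (2 * 2 ^ e) + 2 ^ e) ≤ x ∧ x < F u (i * (2 * 2 ^ e) + 2 * 2 ^ e))
      (fun B h => h) (Ls.map (rel (pm u))) true
    have e3 : (Ls.map (rel (pm u))).flatten ++ rel (pm u) R = rel (pm u) (Ls.flatten ++ R) := by
      unfold rel
      rw [List.map_append, List.map_flatten]
    rw [e3] at h2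
    have h3 := hm Ls
    unfold nd
    rw [hbb]
    simp only [Bool.toNat_true] at h2
    omega
  · push Not at hex
    have h0 : (Ls.map fun B =>
        if (∃ y ∈ B.toFinset, u y / 2 ^ e = 2 * i) ∧ ∃ x ∈ B.toFinset, u x / 2 ^ e = 2 * i + 1
          then 1 else 0).sum = 0 := by
      apply List.sum_eq_zero
      intro a ha
      rw [List.mem_map] at ha
      obtain ⟨B, hB, rfl⟩ := ha
      rw [if_neg]
      rintro ⟨c1, x, hx, hx2⟩
      obtain ⟨y, hy, hy2⟩ := c1
      exact hex B hB ⟨y, hy, hy2⟩ x hx hx2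
    rw [h0]
    exact Nat.zero_le _

end Pool.Agent.Run7.h934.FT
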