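import Pool.Agent.Run7.h934.FR.Phase
import Pool.Agent.Run7.h934.FR.Base

set_option autoImplicit false

/-!
# Splay trees and `k` relabellings: phases, and the number of cells met by a set of keys
-/

namespace Pool.Agent.Run7.h934.FT

open Pool.Agent.H581R2.Splay Pool.Agent.TH49.Spl Pool.Agent.Y395.SP Pool.Agent.N724.TW
open Pool.Agent.Run7.h934.FR

/-- phases with `s` keys each -/
theorem phases1 {n : ℕ} (s : ℕ) (hs : 1 ≤ s) : ∀ (N : ℕ) (X h : List (Fin n)), X.length ≤ N →
    ∃ (L : List (List (Fin n))) (R : List (Fin n)),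
      X = L.flatten ++ R ∧ (∀ B ∈ L, B.toFinset.card = s) ∧ MS s h X ≤ s * (L.length + 1) := by
  intro N
  induction N with
  | zero =>
    intro X h hX
    have : X = [] := List.length_eq_zero_iff.1 (by omega)
    subst this
    exact ⟨[], [], by simp, by simp, by simp [MS]⟩
  | succ N ih =>
    intro X h hX
    obtain ⟨B, X1, e1, b1, c1⟩ := block s hs X
    rcases c1 with c1 | ⟨c1, d1⟩
    · refine ⟨[], X, by simp, by simp, ?_⟩
      subst c1
      rw [List.append_nil] at e1
      subst e1
      have := MS_le s X h b1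
      simp only [List.length_nil]
      omega
    · obtain ⟨L, R, e3, h3, h4⟩ := ih X1 (B.reverse ++ h) (by omega)
      refine ⟨B :: L, R, ?_, ?_, ?_⟩
      · rw [e1, e3]
        simp
      · intro p hp
        rcases List.mem_cons.1 hp with rfl | hp
        · exact c1
        · exact h3 p hp
      · rw [e1, MS_append]
        have h1 := MS_le s B h b1
        simp only [List.length_cons]
        have e5 : s * (L.length + 1 + 1) = s * (L.length + 1) + s := by ring
        rw [e5]
        omega

/-- the working set bound by groups of levels -/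
theorem wsumF_groups {n : ℕ} (g : ℕ) (hg : 1 ≤ g) (X : List (Fin n)) : ∀ h : List (Fin n),
    wsumF h X ≤ g * ((∑ a ∈ Finset.range n, MS (4 * 2 ^ (g * a)) h X : ℕ) : ℝ) +
      2 * X.length := by
  induction X with
  | nil => intro h; simp [wsumF, MS]
  | cons x X ih =>
    intro h
    have h1 := ih (x :: h)
    have ht := wsF_lt h x
    obtain ⟨t, ht0⟩ : ∃ t, t = wsF h x := ⟨_, rfl⟩
    rw [← ht0] at ht
    have hpow : ∀ q : ℕ, q < 2 ^ (g * q) := fun q =>
      lt_of_lt_of_le Nat.lt_two_pow_self
        (Nat.pow_le_pow_right (by norm_num) (Nat.le_mul_of_pos_left q hg))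
    have hex : ∃ q : ℕ, t < 4 * 2 ^ (g * q) := ⟨t, by have := hpow t; omega⟩
    obtain ⟨q, hq, hqm⟩ : ∃ q : ℕ, t < 4 * 2 ^ (g * q) ∧ ∀ m < q, 4 * 2 ^ (g * m) ≤ t := by
      classical
      exact ⟨Nat.find hex, Nat.find_spec hex, fun m hm => not_lt.1 (Nat.find_min hex hm)⟩
    have hqn : q ≤ n := by
      rcases Nat.eq_zero_or_pos q with h0 | h0
      · omega
      · have h2 := hqm (q - 1) (by omega)
        have h3 := hpow (q - 1)
        omega
    have hcount : q ≤ ∑ a ∈ Finset.range n, (if 4 * 2 ^ (g * a) ≤ t then 1 else 0) := by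
      rw [← Finset.card_filter]
      have hsub : Finset.range q ⊆ (Finset.range n).filter fun a => 4 * 2 ^ (g * a) ≤ t := by
        intro l hl
        rw [Finset.mem_range] at hl
        rw [Finset.mem_filter, Finset.mem_range]
        exact ⟨by omega, hqm l hl⟩
      have := Finset.card_le_card hsub
      rwa [Finset.card_range] at this
    have hlog : Real.logb 2 ((t : ℝ) + 1) ≤ g * q + 2 := by
      have e1 : (g : ℝ) * q + 2 = Real.logb 2 ((2 : ℝ) ^ (g * q + 2)) := by
        rw [Real.logb_pow, Real.logb_self_eq_one (by norm_num)]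
        push_cast
        ring
      rw [e1]
      apply Real.logb_le_logb_of_le (by norm_num) (by positivity)
      have h4 : t + 1 ≤ 2 ^ (g * q + 2) := by rw [pow_add]; omega
      exact_mod_cast h4
    simp only [wsumF, MS, List.length_cons, Finset.sum_add_distrib]
    rw [← ht0]
    have hc2 : (q : ℝ) ≤ ((∑ a ∈ Finset.range n, (if 4 * 2 ^ (g * a) ≤ t then 1 else 0) : ℕ) : ℝ) := by
      exact_mod_cast hcount
    have hg0 : (0 : ℝ) ≤ g := Nat.cast_nonneg g
    have hc3 := mul_le_mul_of_nonneg_left hc2 hg0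
    rw [Nat.cast_add, mul_add]
    push_cast at h1 hc3 ⊢
    linarith

/-- the number of cells of length `w` which contain labels of `P` -/
def cells {n : ℕ} (w : ℕ) (u : Fin n → ℕ) (P : Finset (Fin n)) : ℕ :=
  (P.image fun x => u x / w).card

theorem cells_step {n : ℕ} (u : Fin n → ℕ) (P : Finset (Fin n)) (D e : ℕ) (he : e < D)
    (hu : ∀ x, u x < 2 ^ D) :
    cells (2 ^ e) u P ≤ cells (2 ^ (e + 1)) u P + (GN (2 ^ e) (2 ^ (D - 1 - e)) u P P).card := by
  classical
  set S := P.image fun x => u x / 2 ^ e with hS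
  have h1 : (S.filter fun j => ¬ (j % 2 = 1 ∧ j - 1 ∈ S)).card ≤ cells (2 ^ (e + 1)) u P := by
    unfold cells
    apply Finset.card_le_card_of_injOn (fun j => j / 2)
    · intro j hj
      rw [Finset.mem_coe, Finset.mem_filter, hS, Finset.mem_image] at hj
      obtain ⟨⟨x, hx, rfl⟩, -⟩ := hj
      rw [Finset.mem_coe, Finset.mem_image]
      refine ⟨x, hx, ?_⟩
      simp only
      rw [Nat.div_div_eq_div_mul, pow_succ]
    · intro i hi j hj hij
      rw [Finset.mem_coe, Finset.mem_filter] at hi hj
      simp only at hij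
      by_contra hne
      have hcase : (i = j + 1 ∧ i % 2 = 1) ∨ (j = i + 1 ∧ j % 2 = 1) := by omega
      rcases hcase with ⟨h2, h3⟩ | ⟨h2, h3⟩
      · exact hi.2 ⟨h3, by rw [h2, Nat.add_sub_cancel]; exact hj.1⟩
      · exact hj.2 ⟨h3, by rw [h2, Nat.add_sub_cancel]; exact hi.1⟩
  have h2 : (S.filter fun j => j % 2 = 1 ∧ j - 1 ∈ S).card ≤
      (GN (2 ^ e) (2 ^ (D - 1 - e)) u P P).card := by
    apply Finset.card_le_card_of_injOn (fun j => j / 2)
    · intro j hj
      rw [Finset.mem_coe, Finset.mem_filter, hS, Finset.mem_image, Finset.mem_image] at hj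
      obtain ⟨⟨x, hx, hxj⟩, hodd, y, hy, hyj⟩ := hj
      rw [Finset.mem_coe]
      unfold GN
      rw [Finset.mem_filter, Finset.mem_range]
      simp only
      have hj2 : j < 2 ^ (D - e) := by
        rw [← hxj, Nat.div_lt_iff_lt_mul (by positivity), ← pow_add]
        have : D - e + e = D := by omega
        rw [this]
        exact hu x
      have e1 : 2 ^ (D - e) = 2 * 2 ^ (D - 1 - e) := by
        rw [← pow_succ']
        congr 1
        omega
      refine ⟨by omega, ⟨y, hy, by omega⟩, x, hx, by omega⟩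
    · intro i hi j hj hij
      rw [Finset.mem_coe, Finset.mem_filter] at hi hj
      simp only at hij
      omega
  have h3 := Finset.card_filter_add_card_filter_not (s := S) (fun j => j % 2 = 1 ∧ j - 1 ∈ S)
  have h4 : cells (2 ^ e) u P = S.card := rfl
  omega

theorem cells_group {n : ℕ} (u : Fin n → ℕ) (P : Finset (Fin n)) (D b g : ℕ) (hb : b + g ≤ D)
    (hu : ∀ x, u x < 2 ^ D) :
    cells (2 ^ b) u P ≤ cells (2 ^ (b + g)) u P +
      ∑ j ∈ Finset.range g, (GN (2 ^ (b + j)) (2 ^ (D - 1 - (b + j))) u P P).card := by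
  induction g with
  | zero => simp
  | succ g ih =>
    have h1 := ih (by omega)
    have h2 := cells_step u P D (b + g) (by omega) hu
    rw [Finset.sum_range_succ]
    have e1 : b + (g + 1) = b + g + 1 := by ring
    rw [e1]
    omega

theorem cells_le {n : ℕ} (u : Fin n → ℕ) (P : Finset (Fin n)) (D e : ℕ) (he : e ≤ D)
    (hu : ∀ x, u x < 2 ^ D) : cells (2 ^ e) u P ≤ 2 ^ (D - e) := by
  unfold cells
  have h1 : (P.image fun x => u x / 2 ^ e) ⊆ Finset.range (2 ^ (D - e)) := by
    intro j hj
    rw [Finset.mem_image] at hj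
    obtain ⟨x, -, rfl⟩ := hj
    rw [Finset.mem_range, Nat.div_lt_iff_lt_mul (by positivity), ← pow_add]
    have : D - e + e = D := by omega
    rw [this]
    exact hu x
  have h2 := Finset.card_le_card h1
  rwa [Finset.card_range] at h2

end Pool.Agent.Run7.h934.FT
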