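import Pool.Agent.Run7.h934.FR.Prob
import Pool.Agent.Run7.h934.FT.Phase

set_option autoImplicit false

/-!
# Splay trees and `k` relabellings: counting labellings
-/

namespace Pool.Agent.Run7.h934.FT

open Pool.Agent.H581R2.Splay Pool.Agent.TH49.Spl Pool.Agent.Y395.SP Pool.Agent.N724.TW
open Pool.Agent.Run7.h934.FR

theorem exp3 : 3 * Real.exp 3 ≤ 64 := by
  have h1 := Real.exp_one_lt_d9
  have h2 : Real.exp 3 = Real.exp 1 ^ 3 := by
    rw [← Real.exp_nat_mul]
    norm_num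
  have h3 : 0 < Real.exp 1 := Real.exp_pos 1
  have h4 : Real.exp 1 ^ 3 ≤ 2.7182818286 ^ 3 := pow_le_pow_left₀ h3.le h1.le 3
  rw [h2]
  norm_num at h4 ⊢
  linarith

open Classical in
theorem E2_card (n w r M g : ℕ) (hw : 0 < w) (hM : M = 2 ^ g * r * w) (P : Finset (Fin n))
    (hP : P.card = 4 * r) (Z : Finset ℕ) (hZ : Z.card = 3 * r) :
    ((Finset.univ.filter fun u : Fin n → Fin M => ∀ x ∈ P, (u x : ℕ) / w ∈ Z).card : ℝ) ≤
      (M : ℝ) ^ n * (3 / 2 ^ g) ^ (4 * r) := by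
  set V : Fin n → Finset (Fin M) := fun x => if x ∈ P then
    Finset.univ.filter fun v : Fin M => (v : ℕ) / w ∈ Z else Finset.univ with hV
  have hsub : (Finset.univ.filter fun u : Fin n → Fin M => ∀ x ∈ P, (u x : ℕ) / w ∈ Z) ⊆
      Fintype.piFinset V := by
    intro u hu
    rw [Finset.mem_filter] at hu
    rw [Fintype.mem_piFinset]
    intro x
    simp only [hV]
    split_ifs with h1
    · rw [Finset.mem_filter]
      exact ⟨Finset.mem_univ _, hu.2 x h1⟩
    · exact Finset.mem_univ _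
  have hcell : (Finset.univ.filter fun v : Fin M => (v : ℕ) / w ∈ Z).card ≤ 3 * r * w := by
    have h1 : (Finset.univ.filter fun v : Fin M => (v : ℕ) / w ∈ Z).card ≤
        (Z ×ˢ Finset.range w).card := by
      apply Finset.card_le_card_of_injOn (fun v : Fin M => ((v : ℕ) / w, (v : ℕ) % w))
      · intro v hv
        rw [Finset.mem_coe, Finset.mem_filter] at hv
        rw [Finset.mem_coe, Finset.mem_product, Finset.mem_range]
        exact ⟨hv.2, Nat.mod_lt _ hw⟩
      · intro v _ v' _ h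
        rw [Prod.mk.injEq] at h
        apply Fin.ext
        rw [← Nat.div_add_mod (v : ℕ) w, ← Nat.div_add_mod (v' : ℕ) w, h.1, h.2]
    rwa [Finset.card_product, Finset.card_range, hZ] at h1
  have h1 : ((Finset.univ.filter fun u : Fin n → Fin M => ∀ x ∈ P, (u x : ℕ) / w ∈ Z).card : ℝ) ≤
      ((Fintype.piFinset V).card : ℝ) := by
    exact_mod_cast Finset.card_le_card hsub
  refine h1.trans ?_
  rw [Fintype.card_piFinset, Nat.cast_prod]
  have h2 : ∀ x ∈ (Finset.univ : Finset (Fin n)), ((V x).card : ℝ) ≤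
      M * (if x ∈ P then (3 / 2 ^ g : ℝ) else 1) := by
    intro x _
    simp only [hV]
    split_ifs with hx
    · have e1 : (M : ℝ) * (3 / 2 ^ g) = 3 * r * w := by
        rw [hM]
        push_cast
        field_simp
      rw [e1]
      exact_mod_cast hcell
    · rw [Finset.card_univ, Fintype.card_fin, mul_one]
  refine (Finset.prod_le_prod (fun _ _ => Nat.cast_nonneg _) h2).trans (le_of_eq ?_)
  rw [Finset.prod_mul_distrib, Finset.prod_const, Finset.card_univ, Fintype.card_fin,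
    Finset.prod_ite_mem, Finset.univ_inter, Finset.prod_const, hP]

theorem choose_bd (g r : ℕ) (hr : 0 < r) :
    (((2 ^ g * r).choose (3 * r) : ℕ) : ℝ) ≤ (2 ^ g / 3 : ℝ) ^ (3 * r) * Real.exp 3 ^ r := by
  have hr' : (0 : ℝ) < r := by exact_mod_cast hr
  have h1 := Nat.choose_le_pow_div (α := ℝ) (3 * r) (2 ^ g * r)
  have h2 := Real.pow_div_factorial_le_exp ((3 * r : ℕ) : ℝ) (Nat.cast_nonneg _) (3 * r)
  have hf : (0 : ℝ) < ((3 * r).factorial : ℝ) := by exact_mod_cast (3 * r).factorial_pos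
  refine h1.trans ?_
  have e1 : Real.exp ((3 * r : ℕ) : ℝ) = Real.exp 3 ^ r := by
    rw [← Real.exp_nat_mul]
    push_cast
    congr 1
    ring
  rw [e1] at h2
  have e2 : (((2 ^ g * r : ℕ) : ℝ)) ^ (3 * r) / ((3 * r).factorial : ℝ) =
      (2 ^ g / 3 : ℝ) ^ (3 * r) * ((((3 * r : ℕ) : ℝ)) ^ (3 * r) / ((3 * r).factorial : ℝ)) := by
    rw [← mul_div_assoc, ← mul_pow]
    congr 2
    push_cast
    ring
  rw [e2]
  exact mul_le_mul_of_nonneg_left h2 (by positivity)

open Classical in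
/-- a labelling rarely maps a set to few cells -/
theorem bad_cells (n g r w M : ℕ) (hw : 0 < w) (hr : 0 < r) (hg : 6 ≤ g)
    (hM : M = 2 ^ g * r * w) (P : Finset (Fin n)) (hP : P.card = 4 * r) :
    (Finset.univ.filter fun u : Fin n → Fin M =>
      cells w (fun x => (u x : ℕ)) P < 3 * r).card * 2 ^ ((g - 6) * r) ≤ M ^ n := by
  set E : Finset ℕ → Finset (Fin n → Fin M) := fun Z =>
    Finset.univ.filter fun u : Fin n → Fin M => ∀ x ∈ P, (u x : ℕ) / w ∈ Z with hE
  have hsub : (Finset.univ.filter fun u : Fin n → Fin M =>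
      cells w (fun x => (u x : ℕ)) P < 3 * r) ⊆
      ((Finset.range (2 ^ g * r)).powersetCard (3 * r)).biUnion E := by
    intro u hu
    rw [Finset.mem_filter] at hu
    have h1 : (P.image fun x => (u x : ℕ) / w) ⊆ Finset.range (2 ^ g * r) := by
      intro j hj
      rw [Finset.mem_image] at hj
      obtain ⟨x, -, rfl⟩ := hj
      rw [Finset.mem_range, Nat.div_lt_iff_lt_mul hw, ← hM]
      exact (u x).2
    have h2 : 3 * r ≤ (Finset.range (2 ^ g * r)).card := by
      rw [Finset.card_range]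
      apply Nat.mul_le_mul_right
      calc 3 ≤ 2 ^ 6 := by norm_num
        _ ≤ 2 ^ g := Nat.pow_le_pow_right (by norm_num) hg
    obtain ⟨Z, z1, z2, z3⟩ := Finset.exists_subsuperset_card_eq h1 hu.2.le h2
    rw [Finset.mem_biUnion]
    refine ⟨Z, Finset.mem_powersetCard.2 ⟨z2, z3⟩, ?_⟩
    rw [hE]
    simp only [Finset.mem_filter, Finset.mem_univ, true_and]
    intro x hx
    exact z1 (Finset.mem_image.2 ⟨x, hx, rfl⟩)
  have h1 : ((Finset.univ.filter fun u : Fin n → Fin M =>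
      cells w (fun x => (u x : ℕ)) P < 3 * r).card : ℝ) ≤
      ∑ Z ∈ (Finset.range (2 ^ g * r)).powersetCard (3 * r), ((E Z).card : ℝ) := by
    have := (Finset.card_le_card hsub).trans Finset.card_biUnion_le
    exact_mod_cast this
  have h2 : ∀ Z ∈ (Finset.range (2 ^ g * r)).powersetCard (3 * r), ((E Z).card : ℝ) ≤
      (M : ℝ) ^ n * (3 / 2 ^ g) ^ (4 * r) := by
    intro Z hZ
    exact E2_card n w r M g hw hM P hP Z (Finset.mem_powersetCard.1 hZ).2
  have h3 := h1.trans (Finset.sum_le_sum h2)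
  rw [Finset.sum_const, nsmul_eq_mul, Finset.card_powersetCard, Finset.card_range] at h3
  have h4 := choose_bd g r hr
  have h5 : (((2 ^ g * r).choose (3 * r) : ℕ) : ℝ) * ((M : ℝ) ^ n * (3 / 2 ^ g) ^ (4 * r)) ≤
      ((2 ^ g / 3 : ℝ) ^ (3 * r) * Real.exp 3 ^ r) * ((M : ℝ) ^ n * (3 / 2 ^ g) ^ (4 * r)) :=
    mul_le_mul_of_nonneg_right h4 (by positivity)
  have e1 : ((2 ^ g / 3 : ℝ) ^ (3 * r) * Real.exp 3 ^ r) * ((M : ℝ) ^ n * (3 / 2 ^ g) ^ (4 * r)) =
      (M : ℝ) ^ n * (3 * Real.exp 3 / 2 ^ g) ^ r := by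
    have e2 : (2 ^ g / 3 : ℝ) ^ (3 * r) * (3 / 2 ^ g) ^ (4 * r) = (3 / 2 ^ g) ^ r := by
      have e3 : 4 * r = 3 * r + r := by ring
      rw [e3, pow_add, ← mul_assoc, ← mul_pow]
      have e4 : (2 ^ g / 3 : ℝ) * (3 / 2 ^ g) = 1 := by field_simp
      rw [e4, one_pow, one_mul]
    calc ((2 ^ g / 3 : ℝ) ^ (3 * r) * Real.exp 3 ^ r) * ((M : ℝ) ^ n * (3 / 2 ^ g) ^ (4 * r))
        = (M : ℝ) ^ n * (((2 ^ g / 3 : ℝ) ^ (3 * r) * (3 / 2 ^ g) ^ (4 * r)) *
            Real.exp 3 ^ r) := by ring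
      _ = (M : ℝ) ^ n * ((3 / 2 ^ g) ^ r * Real.exp 3 ^ r) := by rw [e2]
      _ = (M : ℝ) ^ n * (3 * Real.exp 3 / 2 ^ g) ^ r := by
          rw [← mul_pow]
          congr 2
          ring
  have e5 : (3 * Real.exp 3 / 2 ^ g : ℝ) ^ r * 2 ^ ((g - 6) * r) ≤ 1 := by
    rw [pow_mul, ← mul_pow]
    apply pow_le_one₀ (by positivity)
    have e6 : (2 : ℝ) ^ g = 2 ^ (g - 6) * 64 := by
      have : g = (g - 6) + 6 := by omega
      conv_lhs => rw [this, pow_add]
      norm_num
    rw [div_mul_eq_mul_div, div_le_one (by positivity), e6]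
    have h6 : (0 : ℝ) < 2 ^ (g - 6) := by positivity
    nlinarith [exp3]
  have hfin : ((Finset.univ.filter fun u : Fin n → Fin M =>
      cells w (fun x => (u x : ℕ)) P < 3 * r).card : ℝ) * 2 ^ ((g - 6) * r) ≤ (M : ℝ) ^ n := by
    have h7 := h3.trans (h5.trans (le_of_eq e1))
    calc _ ≤ ((M : ℝ) ^ n * (3 * Real.exp 3 / 2 ^ g) ^ r) * 2 ^ ((g - 6) * r) :=
          mul_le_mul_of_nonneg_right h7 (by positivity)
      _ = (M : ℝ) ^ n * ((3 * Real.exp 3 / 2 ^ g) ^ r * 2 ^ ((g - 6) * r)) := by ring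
      _ ≤ (M : ℝ) ^ n * 1 := mul_le_mul_of_nonneg_left e5 (by positivity)
      _ = _ := mul_one _
  exact_mod_cast hfin

/-- the number of levels in a group -/
def gr (n d k : ℕ) : ℕ := 6 + 4 * d * (5 * (Nat.log 2 n + 1) / k + 1)

open Classical in
/-- there is a good family -/
theorem exists_family2 (n d k g : ℕ) (hn : 1 ≤ n) (hk : 1 ≤ k) (hg : g = gr n d k) :
    ∃ τ : Fin k → (Fin n → Fin (2 ^ (g * n))), ∀ b < n, ∀ P : Finset (Fin n),
      P.card = 4 * 2 ^ (g * (n - 1 - b)) →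
      2 * d * (Finset.univ.filter fun i => cells (2 ^ (g * b)) (fun x => (τ i x : ℕ)) P <
        3 * 2 ^ (g * (n - 1 - b))).card ≤ k := by
  obtain ⟨h, hh⟩ : ∃ h : ℕ, h = 5 * (Nat.log 2 n + 1) / k + 1 := ⟨_, rfl⟩
  have hg' : g = 6 + 4 * d * h := by rw [hg, gr, hh]
  have hpow5 : n ^ 5 < 2 ^ (h * k) := by
    have h1 : n ^ 5 < (2 ^ (Nat.log 2 n + 1)) ^ 5 :=
      Nat.pow_lt_pow_left (Nat.lt_pow_succ_log_self (by norm_num) n) (by norm_num)
    refine lt_of_lt_of_le h1 ?_
    rw [← pow_mul]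
    apply Nat.pow_le_pow_right (by norm_num)
    have h2 := Nat.lt_mul_div_succ (5 * (Nat.log 2 n + 1)) (show 0 < k by omega)
    rw [hh, mul_comm _ k]
    omega
  by_contra hcon
  push Not at hcon
  set BD : ℕ → Finset (Fin n) → Finset (Fin n → Fin (2 ^ (g * n))) := fun b P =>
    Finset.univ.filter fun u : Fin n → Fin (2 ^ (g * n)) =>
      cells (2 ^ (g * b)) (fun x => (u x : ℕ)) P < 3 * 2 ^ (g * (n - 1 - b)) with hBD
  set FL : ℕ → Finset (Fin n) → Finset (Fin k → (Fin n → Fin (2 ^ (g * n)))) :=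
    fun b P => Finset.univ.filter fun τ : Fin k → (Fin n → Fin (2 ^ (g * n))) =>
      k < 2 * d * (Finset.univ.filter fun i => τ i ∈ BD b P).card with hFL
  set PP : ℕ → Finset (Finset (Fin n)) := fun b =>
    Finset.powersetCard (4 * 2 ^ (g * (n - 1 - b))) Finset.univ with hPP
  have hcov : (Finset.univ : Finset (Fin k → (Fin n → Fin (2 ^ (g * n))))) ⊆
      (Finset.range n).biUnion fun b => (PP b).biUnion fun P => FL b P := by
    intro τ _
    obtain ⟨b, hb, P, hP, hlt⟩ := hcon τ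
    rw [Finset.mem_biUnion]
    refine ⟨b, Finset.mem_range.2 hb, ?_⟩
    rw [Finset.mem_biUnion]
    refine ⟨P, ?_, ?_⟩
    · rw [hPP]
      simp only [Finset.mem_powersetCard]
      exact ⟨Finset.subset_univ _, hP⟩
    · rw [hFL]
      simp only [Finset.mem_filter, Finset.mem_univ, true_and, hBD]
      exact hlt
  have hΩ : Fintype.card (Fin n → Fin (2 ^ (g * n))) = (2 ^ (g * n)) ^ n := by
    rw [Fintype.card_fun, Fintype.card_fin, Fintype.card_fin]
  set Q : ℕ := ((2 ^ (g * n)) ^ n) ^ k with hQ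
  have hcard : Q ≤ ∑ b ∈ Finset.range n, ∑ P ∈ PP b, (FL b P).card := by
    have h1 := Finset.card_le_card hcov
    rw [Finset.card_univ, Fintype.card_fun, Fintype.card_fin, hΩ] at h1
    refine h1.trans (Finset.card_biUnion_le.trans ?_)
    exact Finset.sum_le_sum fun e _ => Finset.card_biUnion_le
  have hlev : ∀ b ∈ Finset.range n, n * ∑ P ∈ PP b, (FL b P).card < Q := by
    intro b hb
    have hb' := Finset.mem_range.1 hb
    obtain ⟨r, hr⟩ : ∃ r : ℕ, r = 2 ^ (g * (n - 1 - b)) := ⟨_, rfl⟩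
    have hr0 : 0 < r := by rw [hr]; positivity
    have hM : 2 ^ (g * n) = 2 ^ g * r * 2 ^ (g * b) := by
      rw [hr, ← pow_add, ← pow_add]
      congr 1
      have : n = 1 + (n - 1 - b) + b := by omega
      conv_lhs => rw [this]
      ring
    have hFLp : ∀ P ∈ PP b, (FL b P).card * 2 ^ (h * r * k) ≤ Q := by
      intro P hP
      rw [hPP] at hP
      simp only [Finset.mem_powersetCard] at hP
      have h1 : (BD b P).card * 2 ^ (4 * d * (h * r)) ≤
          Fintype.card (Fin n → Fin (2 ^ (g * n))) := by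
        rw [hΩ, hBD]
        simp only
        have h2 := bad_cells n g r (2 ^ (g * b)) (2 ^ (g * n)) (by positivity) hr0 (by omega) hM P
          (by rw [hP.2, hr])
        rw [← hr]
        have e1 : (g - 6) * r = 4 * d * (h * r) := by
          rw [hg', Nat.add_sub_cancel_left]; ring
        rw [e1] at h2
        convert h2
      have h2 := fail_card k d (h * r) (Nat.mul_pos (by rw [hh]; exact Nat.succ_pos _) hr0) (BD b P) h1
      rw [hΩ] at h2
      rw [hQ]
      convert h2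
    have hPPc : (PP b).card ≤ n ^ (4 * r) := by
      rw [hPP]
      rw [Finset.card_powersetCard, Finset.card_univ, Fintype.card_fin, ← hr]
      exact Nat.choose_le_pow n (4 * r)
    have hpow : n * n ^ (4 * r) < 2 ^ (h * r * k) := by
      calc n * n ^ (4 * r) = n ^ (4 * r + 1) := by rw [pow_succ]; ring
        _ ≤ n ^ (5 * r) := Nat.pow_le_pow_right hn (by omega)
        _ = (n ^ 5) ^ r := by rw [pow_mul]
        _ < (2 ^ (h * k)) ^ r := Nat.pow_lt_pow_left hpow5 hr0.ne'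
        _ = 2 ^ (h * r * k) := by rw [← pow_mul]; congr 1; ring
    have hQpos : 0 < Q := by rw [hQ]; positivity
    have h4 : (n * ∑ P ∈ PP b, (FL b P).card) * 2 ^ (h * r * k) < Q * 2 ^ (h * r * k) := by
      calc (n * ∑ P ∈ PP b, (FL b P).card) * 2 ^ (h * r * k)
          = n * ∑ P ∈ PP b, (FL b P).card * 2 ^ (h * r * k) := by
            rw [← Finset.sum_mul]; ring
        _ ≤ n * ∑ P ∈ PP b, Q := Nat.mul_le_mul_left _ (Finset.sum_le_sum hFLp)
        _ = n * (PP b).card * Q := by rw [Finset.sum_const, smul_eq_mul]; ring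
        _ ≤ n * n ^ (4 * r) * Q := by
            apply Nat.mul_le_mul_right
            exact Nat.mul_le_mul_left _ hPPc
        _ < 2 ^ (h * r * k) * Q := Nat.mul_lt_mul_of_pos_right hpow hQpos
        _ = _ := by ring
    exact Nat.lt_of_mul_lt_mul_right h4
  have hsum : ∑ b ∈ Finset.range n, n * ∑ P ∈ PP b, (FL b P).card < ∑ b ∈ Finset.range n, Q :=
    Finset.sum_lt_sum_of_nonempty ⟨0, Finset.mem_range.2 hn⟩ hlev
  rw [← Finset.mul_sum, Finset.sum_const, Finset.card_range, smul_eq_mul] at hsum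
  have := Nat.lt_of_mul_lt_mul_left hsum
  omega

end Pool.Agent.Run7.h934.FT
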