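import Pool.Agent.Run7.h934.FT.Base
import Pool.Agent.Run7.h934.FT.Prob
import Pool.Agent.Run7.h934.FR.Main

set_option autoImplicit false

/-!
# Splay trees and `k` relabellings: assembly
-/

namespace Pool.Agent.Run7.h934.FT

open Pool.Agent.H581R2.Splay Pool.Agent.TH49.Spl Pool.Agent.Y395.SP Pool.Agent.N724.TW
open Pool.Agent.Run7.h934.FR

/-- the interleave bound for the optimum -/
theorem opt_alt2 {n : ℕ} {T : Tr} (hT : keys T = List.range n) (u : Fin n → ℕ) (D : ℕ)
    (X : List (Fin n)) :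
    (alt u D (rel (pm u) X) : ℝ) ≤ 2 * optAny (List.range n) (rel (pm u) X) + n := by
  have h1 : ((alt u D (rel (pm u) X) : ℝ) - n) / 2 ≤
      (optAny (List.range n) (rel (pm u) X) : ℝ) := by
    refine optAny_ge hT fun T' c hT' hE => ?_
    have h2 := alt_le u D (bst_range hT') (fun x hx => by
      rw [hT', List.mem_range]; exact rel_mem (pm u) X x hx) hE
    have h4 : ((alt u D (rel (pm u) X) : ℕ) : ℝ) ≤ ((2 * c + n : ℕ) : ℝ) := by exact_mod_cast h2
    push_cast at h4
    linarith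
  linarith

theorem sum_group (g A : ℕ) (f : ℕ → ℕ) : ∑ e ∈ Finset.range (g * A), f e =
    ∑ b ∈ Finset.range A, ∑ j ∈ Finset.range g, f (g * b + j) := by
  induction A with
  | zero => simp
  | succ A ih =>
    rw [Finset.sum_range_succ, ← ih, Nat.mul_succ, Finset.sum_range_add]

theorem geo2 (g n m : ℕ) (hg : 1 ≤ g) :
    ∑ a ∈ Finset.range m, (if 4 * 2 ^ (g * a) < n then 4 * 2 ^ (g * a) else 0) ≤
      4 * 2 ^ (g * m) ∧
    ∑ a ∈ Finset.range m, (if 4 * 2 ^ (g * a) < n then 4 * 2 ^ (g * a) else 0) ≤ 2 * n := by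
  induction m with
  | zero => simp
  | succ m ih =>
    rw [Finset.sum_range_succ]
    have e : 2 * 2 ^ (g * m) ≤ 2 ^ (g * (m + 1)) := by
      rw [← pow_succ']
      apply Nat.pow_le_pow_right (by norm_num)
      rw [Nat.mul_succ]
      omega
    split_ifs with h
    · exact ⟨by omega, by omega⟩
    · exact ⟨by omega, by omega⟩

theorem sum_list_comm {α : Type} (L : List α) (s : Finset ℕ) (f : α → ℕ → ℕ) :
    (L.map fun B => ∑ j ∈ s, f B j).sum = ∑ j ∈ s, (L.map fun B => f B j).sum := by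
  induction L with
  | nil => simp
  | cons B L ih =>
    simp only [List.map_cons, List.sum_cons]
    rw [ih, ← Finset.sum_add_distrib]

open Classical in
/-- the working set bound and the optimum for most members of a family of `k` relabellings -/
theorem main_ws2 (d n k g : ℕ) (hn : 1 ≤ n) (hk : 1 ≤ k) (hg : g = gr n d k) :
    ∃ σ : Fin k → Equiv.Perm (Fin n), ∀ X : List (Fin n),
      d * (Finset.univ.filter fun i => ¬ (wsumF [] X ≤
          16 * g * optAny (List.range n) (rel (σ i) X) + 10 * g * n + 2 * X.length)).card ≤ k := by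
  obtain ⟨τ, hτ⟩ := exists_family2 n d k g hn hk hg
  refine ⟨fun i => pm (fun x => (τ i x : ℕ)), fun X => ?_⟩
  obtain ⟨T, hT⟩ := exists_tree (List.range n)
  have hg1 : 1 ≤ g := by rw [hg, gr]; omega
  -- the phases
  have hph := fun b : ℕ => phases1 (4 * 2 ^ (g * (n - 1 - b))) (Nat.mul_pos (by norm_num)
    (by positivity)) X.length X [] le_rfl
  choose L R hX hL hMS using hph
  set J : Finset (Σ b : ℕ, Fin (L b).length) :=
    (Finset.range n).sigma fun b => (Finset.univ : Finset (Fin (L b).length)) with hJ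
  set wt : (Σ b : ℕ, Fin (L b).length) → ℕ := fun p => 2 ^ (g * (n - 1 - p.1)) with hwt
  set bad : Fin k → (Σ b : ℕ, Fin (L b).length) → Prop := fun i p =>
    cells (2 ^ (g * p.1)) (fun x => (τ i x : ℕ)) ((L p.1)[p.2.1]).toFinset <
      3 * 2 ^ (g * (n - 1 - p.1)) with hbad
  have hm := markov (Finset.univ : Finset (Fin k)) J wt bad d (by
    intro p hp
    rw [hJ, Finset.mem_sigma, Finset.mem_range] at hp
    rw [Finset.card_univ, Fintype.card_fin]
    exact hτ p.1 hp.1 _ (hL p.1 _ (List.getElem_mem p.2.2)))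
  rw [Finset.card_univ, Fintype.card_fin] at hm
  refine le_trans (Nat.mul_le_mul_left d (Finset.card_le_card ?_)) hm
  intro i hi
  rw [Finset.mem_filter] at hi ⊢
  refine ⟨hi.1, fun hgood => hi.2 ?_⟩
  -- the lower bound for the optimum
  set u : Fin n → ℕ := fun x => (τ i x : ℕ) with hu
  have hulb : ∀ x, u x < 2 ^ (g * n) := fun x => (τ i x).2
  have halt : ∑ p ∈ J.filter (fun p => ¬ bad i p), wt p ≤ alt u (g * n) (rel (pm u) X) := by
    have h1 : ∀ b ∈ Finset.range n, 2 * ∑ j : Fin (L b).length,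
        (if ¬ bad i ⟨b, j⟩ then 2 ^ (g * (n - 1 - b)) else 0) ≤
        2 * ∑ j ∈ Finset.range g, ∑ a ∈ Finset.range (2 ^ (g * n - 1 - (g * b + j))),
          nd u (rel (pm u) X) (g * b + j) (a * (2 * 2 ^ (g * b + j))) := by
      intro b hb
      have hb' := Finset.mem_range.1 hb
      have hgb : g * b + g ≤ g * n := by
        have : g * (b + 1) ≤ g * n := Nat.mul_le_mul_left _ hb'
        rw [Nat.mul_succ] at this
        exact this
      have e1 : g * n - (g * b + g) = g * (n - 1 - b) := by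
        have : n = (n - 1 - b) + b + 1 := by omega
        have h2 : g * n = g * (n - 1 - b) + (g * b + g) := by
          conv_lhs => rw [this]
          ring
        omega
      have h2 : ∑ j ∈ Finset.range g, ((L b).map fun B => (GN (2 ^ (g * b + j))
          (2 ^ (g * n - 1 - (g * b + j))) u B.toFinset B.toFinset).card).sum ≤
          2 * ∑ j ∈ Finset.range g, ∑ a ∈ Finset.range (2 ^ (g * n - 1 - (g * b + j))),
          nd u (rel (pm u) X) (g * b + j) (a * (2 * 2 ^ (g * b + j))) := by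
        rw [Finset.mul_sum]
        refine Finset.sum_le_sum fun j _ => ?_
        have h3 := FT.level_le u (g * b + j) (2 ^ (g * n - 1 - (g * b + j))) (R b) (L b)
        rw [← hX b] at h3
        exact h3
      refine le_trans ?_ h2
      rw [← sum_list_comm (L b) (Finset.range g) (fun B j => (GN (2 ^ (g * b + j))
          (2 ^ (g * n - 1 - (g * b + j))) u B.toFinset B.toFinset).card),
        ← Fin.sum_univ_fun_getElem, Finset.mul_sum]
      refine Finset.sum_le_sum fun j _ => ?_
      by_cases h3 : bad i ⟨b, j⟩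
      · rw [if_neg (not_not.2 h3), mul_zero]
        exact Nat.zero_le _
      · rw [if_pos h3]
        have h4 := cells_group u ((L b)[j.1]).toFinset (g * n) (g * b) g hgb hulb
        have h5 := cells_le u ((L b)[j.1]).toFinset (g * n) (g * b + g) hgb hulb
        rw [e1] at h5
        have h6 : ¬ (cells (2 ^ (g * b)) u ((L b)[j.1]).toFinset <
          3 * 2 ^ (g * (n - 1 - b))) := h3
        omega
    have h2 : ∑ p ∈ J.filter (fun p => ¬ bad i p), wt p = ∑ b ∈ Finset.range n,
        ∑ j : Fin (L b).length, (if ¬ bad i ⟨b, j⟩ then 2 ^ (g * (n - 1 - b)) else 0) := by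
      rw [Finset.sum_filter, hJ, Finset.sum_sigma]
    have h3 := Finset.sum_le_sum h1
    rw [← Finset.mul_sum, ← Finset.mul_sum, ← h2] at h3
    have h4 : alt u (g * n) (rel (pm u) X) = ∑ b ∈ Finset.range n, ∑ j ∈ Finset.range g,
        ∑ a ∈ Finset.range (2 ^ (g * n - 1 - (g * b + j))),
          nd u (rel (pm u) X) (g * b + j) (a * (2 * 2 ^ (g * b + j))) := by
      unfold alt
      exact sum_group g n _
    rw [h4]
    omega
  have hW : ∑ p ∈ J, wt p = ∑ b ∈ Finset.range n, (L b).length * 2 ^ (g * (n - 1 - b)) := by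
    rw [hJ, Finset.sum_sigma]
    refine Finset.sum_congr rfl fun e _ => ?_
    simp only [hwt]
    rw [Finset.sum_const, Finset.card_univ, Fintype.card_fin, smul_eq_mul]
  rw [hW] at hgood
  set W := ∑ b ∈ Finset.range n, (L b).length * 2 ^ (g * (n - 1 - b)) with hWdef
  have hW2 : W ≤ 2 * alt u (g * n) (rel (pm u) X) :=
    hgood.trans (Nat.mul_le_mul_left 2 halt)
  have hopt := opt_alt2 hT u (g * n) X
  have hW4 : (W : ℝ) ≤ 4 * optAny (List.range n) (rel (pm u) X) + 2 * n := by
    have h1 : (W : ℝ) ≤ 2 * alt u (g * n) (rel (pm u) X) := by exact_mod_cast hW2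
    linarith
  -- the working set bound
  have h1 := wsumF_groups g hg1 X []
  have h2 : ∑ a ∈ Finset.range n, MS (4 * 2 ^ (g * a)) [] X =
      ∑ b ∈ Finset.range n, MS (4 * 2 ^ (g * (n - 1 - b))) [] X :=
    (Finset.sum_range_reflect (fun a => MS (4 * 2 ^ (g * a)) [] X) n).symm
  have h3 : ∀ b ∈ Finset.range n, MS (4 * 2 ^ (g * (n - 1 - b))) [] X ≤
      4 * ((L b).length * 2 ^ (g * (n - 1 - b))) +
        (if 4 * 2 ^ (g * (n - 1 - b)) < n then 4 * 2 ^ (g * (n - 1 - b)) else 0) := by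
    intro b _
    split_ifs with h4
    · refine (hMS b).trans (le_of_eq ?_)
      ring
    · rw [MS_zero _ (not_lt.1 h4)]
      exact Nat.zero_le _
  have h5 := Finset.sum_le_sum h3
  rw [Finset.sum_add_distrib, ← Finset.mul_sum,
    Finset.sum_range_reflect (fun a => if 4 * 2 ^ (g * a) < n then 4 * 2 ^ (g * a) else 0) n,
    ← h2, ← hWdef] at h5
  have h6 := (geo2 g n n hg1).2
  have h7 : ∑ a ∈ Finset.range n, MS (4 * 2 ^ (g * a)) [] X ≤ 4 * W + 2 * n := by omega
  have h7' : ((∑ a ∈ Finset.range n, MS (4 * 2 ^ (g * a)) [] X : ℕ) : ℝ) ≤ 4 * W + 2 * n := by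
    exact_mod_cast h7
  set O : ℝ := (optAny (List.range n) (rel (pm u) X) : ℝ) with hO
  have hg0 : (0 : ℝ) ≤ g := Nat.cast_nonneg g
  have q1 : (g : ℝ) * ((∑ a ∈ Finset.range n, MS (4 * 2 ^ (g * a)) [] X : ℕ) : ℝ) ≤
      g * (16 * O + 10 * n) := by
    apply mul_le_mul_of_nonneg_left _ hg0
    linarith
  linarith

theorem natlog_le (n : ℕ) (hn : 1 ≤ n) : ((Nat.log 2 n : ℕ) : ℝ) ≤ Real.logb 2 n := by
  rw [Real.le_logb_iff_rpow_le (by norm_num) (by exact_mod_cast hn), Real.rpow_natCast]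
  exact_mod_cast Nat.pow_log_le_self 2 (by omega)

theorem gr_le (n d k : ℕ) (hn : 1 ≤ n) (hd : 1 ≤ d) (hk : 1 ≤ k) :
    ((gr n d k : ℕ) : ℝ) ≤ 30 * d * (1 + Real.logb 2 n / k) := by
  have hd1 : (1 : ℝ) ≤ d := by exact_mod_cast hd
  have hk1 : (1 : ℝ) ≤ k := by exact_mod_cast hk
  have h1 : (((5 * (Nat.log 2 n + 1)) / k : ℕ) : ℝ) ≤ ((5 * (Nat.log 2 n + 1) : ℕ) : ℝ) / k :=
    Nat.cast_div_le
  have h2 := natlog_le n hn
  have h3 : ((5 * (Nat.log 2 n + 1) : ℕ) : ℝ) / k ≤ 5 * (Real.logb 2 n / k) + 5 := by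
    rw [div_le_iff₀ (by linarith)]
    push_cast
    have e1 : (5 * (Real.logb 2 n / k) + 5) * (k : ℝ) = 5 * Real.logb 2 n + 5 * k := by
      field_simp
    rw [e1]
    linarith
  have h4 : 0 ≤ Real.logb 2 n / k := div_nonneg (logb_nonneg' n) (by linarith)
  unfold gr
  push_cast
  have h5 : (4 * (d : ℝ)) * ((((5 * (Nat.log 2 n + 1)) / k : ℕ) : ℝ) + 1) ≤
      (4 * d) * (5 * (Real.logb 2 n / k) + 6) :=
    mul_le_mul_of_nonneg_left (by linarith) (by linarith)
  nlinarith [mul_nonneg (by linarith : (0 : ℝ) ≤ d) h4]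

open Classical in
/-- the upper bound -/
theorem upper2 (d n k : ℕ) (hd : 1 ≤ d) (hk : 1 ≤ k) :
    ∃ σ : Fin k → Equiv.Perm (Fin n), ∀ X : List (Fin n),
      d * (Finset.univ.filter fun i => ¬ ∀ T : Tr, keys T = List.range n →
        ∀ ρ : Equiv.Perm (Fin n),
          (costSplay T (rel ρ X) : ℝ) ≤
            2900 * d * (1 + Real.logb 2 n / k) * (optAny (List.range n) (rel (σ i) X) + n) +
              8 * (n * Real.logb 2 n) ∧
          ((∀ x : Fin n, x ∈ X) → (costSplay T (rel ρ X) : ℝ) ≤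
            11000 * d * (1 + Real.logb 2 n / k) *
              optAny (List.range n) (rel (σ i) X))).card ≤ k := by
  have hd1 : (1 : ℝ) ≤ d := by exact_mod_cast hd
  have hk1 : (1 : ℝ) ≤ k := by exact_mod_cast hk
  rcases Nat.eq_zero_or_pos n with rfl | hn
  · refine ⟨fun _ => 1, fun X => ?_⟩
    have hX : X = [] := by
      rcases X with _ | ⟨x, X⟩
      · rfl
      · exact x.elim0
    subst hX
    refine le_trans (le_of_eq ?_) (Nat.zero_le _)
    rw [Nat.mul_eq_zero]
    right
    rw [Finset.card_eq_zero, Finset.filter_eq_empty_iff]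
    intro i _ hcon
    apply hcon
    intro T _ ρ
    have h0 : costSplay T (rel ρ []) = 0 := by simp [rel, costSplay]
    rw [h0]
    have e1 : Real.logb 2 (((0 : ℕ)) : ℝ) = 0 := by simp
    rw [e1]
    constructor
    · push_cast
      simp only [zero_div, add_zero, mul_one, mul_zero]
      positivity
    · intro _
      push_cast
      simp only [zero_div, add_zero, mul_one]
      positivity
  obtain ⟨g, hg⟩ : ∃ g, g = gr n d k := ⟨_, rfl⟩
  obtain ⟨σ, hσ⟩ := main_ws2 d n k g hn hk hg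
  refine ⟨σ, fun X => le_trans (Nat.mul_le_mul_left d (Finset.card_le_card ?_)) (hσ X)⟩
  intro i hi
  rw [Finset.mem_filter] at hi ⊢
  refine ⟨hi.1, fun hws => hi.2 fun T hT ρ => ?_⟩
  have hsp := splay_ws hT X ρ
  have hlen := opt_len hT (σ i) X
  have hgr : (g : ℝ) ≤ 30 * d * (1 + Real.logb 2 n / k) := by rw [hg]; exact gr_le n d k hn hd hk
  set O : ℝ := (optAny (List.range n) (rel (σ i) X) : ℝ) with hO
  have hO0 : 0 ≤ O := by rw [hO]; positivity
  set c : ℝ := d * (1 + Real.logb 2 n / k) with hc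
  have h4 : 0 ≤ Real.logb 2 n / k := div_nonneg (logb_nonneg' n) (by linarith)
  have hc1 : 1 ≤ c := by rw [hc]; nlinarith
  have hgc : (g : ℝ) ≤ 30 * c := by rw [hc]; linarith
  have e1 : 2900 * (d : ℝ) * (1 + Real.logb 2 n / k) = 2900 * c := by rw [hc]; ring
  have e2 : 11000 * (d : ℝ) * (1 + Real.logb 2 n / k) = 11000 * c := by rw [hc]; ring
  rw [e1, e2]
  have hn0 : (0 : ℝ) ≤ n := Nat.cast_nonneg n
  have q1 : (g : ℝ) * O ≤ 30 * c * O := mul_le_mul_of_nonneg_right hgc hO0
  have q2 : (g : ℝ) * n ≤ 30 * c * n := mul_le_mul_of_nonneg_right hgc hn0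
  have q3 : O ≤ c * O := by nlinarith
  have q4 : (0 : ℝ) ≤ c * n := by positivity
  constructor
  · nlinarith
  · intro hall
    have h1 := Pool.Agent.N724.TX.nlogn_le hall
    have h4 : n ≤ X.length := by
      have h5 := List.toFinset_card_le X
      have h2 : X.toFinset = Finset.univ := by
        ext x
        simp [hall x]
      rwa [h2, Finset.card_univ, Fintype.card_fin] at h5
    have h5 : (n : ℝ) ≤ O := by
      have : (n : ℝ) ≤ X.length := by exact_mod_cast h4
      linarith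
    have q5 : (g : ℝ) * n ≤ g * O := mul_le_mul_of_nonneg_left h5 (Nat.cast_nonneg g)
    nlinarith

end Pool.Agent.Run7.h934.FT
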